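import Pool.Agent.R229.MS.Bridge
import Pool.Agent.R229.MS.Piece
import Pool.Agent.R229.MS.Free
import Pool.Agent.R209.MS.Step
import Pool.Agent.R209.MS.Rec
import Pool.Agent.R364.MS.G
import Pool.Agent.R364.MS.M3
import Pool.Agent.R280.MSW.Basic
import Pool.Agent.R280.MSW.Perm3

/-! Every `*`-isomorphism between support expansion algebras of measure spaces is spatially
implemented. -/

set_option autoImplicit false

namespace Pool.Agent.Results.MP_612f91_an.SpatiallyImplemented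

open MeasureTheory Pool.Agent.R229.MS.Short

universe u

/-- Let `(X, μ)` and `(Y, ν)` be measure spaces. Every `*`-isomorphism `Φ` from `C*_u(X, V_μ)`
onto `C*_u(Y, V_ν)` is of the form `a ↦ u a u⁻¹` with `u : L²(X, μ) → L²(Y, ν)` unitary. -/
theorem result (X Y : Type u) [MeasurableSpace X] [MeasurableSpace Y] (μ : Measure X)
    (ν : Measure Y) (Φ : Op μ → Op ν) (hΦ : IsStarIso (CuAlg μ) (CuAlg ν) Φ) :
    ∃ u : HS μ ≃ₗᵢ[ℂ] HS ν, ∀ a ∈ CuAlg μ, ∀ η : HS ν, (Φ a) η = u (a (u.symm η)) :=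
  Pool.Agent.R229.MS.short_final
    (Pool.Agent.R364.MS.maharam (Pool.Agent.R229.MS.stmtRec
      (Pool.Agent.R229.MS.stmtStep Pool.Agent.R364.MS.stmtG) Pool.Agent.R229.MS.stmtUndMono))
    (Pool.Agent.R229.MS.piece Pool.Agent.R280.MSW.stmtTotal Pool.Agent.R280.MSW.stmtPerm
      Pool.Agent.R229.MS.t_StmtFree) X Y μ ν Φ hΦ

end Pool.Agent.Results.MP_612f91_an.SpatiallyImplemented
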